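import Pool.Agent.N798.T.Stm
import Pool.Agent.Y957.VK.E1

/-!
# The Plancherel step for families with an exceptional interval (helper499)

Adapted from `Pool/Agent/Y957/VK/E1.lean`.
-/

set_option autoImplicit false

namespace Pool.Agent.N499.T

open Finset MeasureTheory Filter FourierTransform
open scoped ENNReal
open Pool.Agent.H376R2.MR (er)
open Pool.Agent.Y957.AD (four_shift memLp_of_bdd er_norm er_zero)
open Pool.Agent.Y957.VK (four_fsum four_smulc ton enorm_sq_le)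
open Pool.Agent.N798.T

/-- integral of `1/ξ²` away from zero -/
theorem tail2 {T K : ℝ} (hT0 : 0 < T) (hK : 0 ≤ K) : ∫⁻ ξ : ℝ,
    (Set.Iic T)ᶜ.indicator (fun x => ENNReal.ofReal (K / 2 * (x ^ 2)⁻¹)) |ξ| ≤ ENNReal.ofReal (K / T) := by
  have h0 : ∫⁻ x in Set.Ioi T, ENNReal.ofReal (K / 2 * (x ^ 2)⁻¹) = ENNReal.ofReal (K / 2 / T) := by
    have hi : IntegrableOn (fun x : ℝ => K / 2 * (x ^ 2)⁻¹) (Set.Ioi T) := by
      have := integrableOn_Ioi_rpow_of_lt (a := -2) (by norm_num) hT0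
      refine IntegrableOn.congr_fun (this.const_mul (K / 2)) (fun x hx => ?_) measurableSet_Ioi
      have hx0 : 0 < x := hT0.trans hx
      rw [Real.rpow_neg hx0.le, Real.rpow_two]
    rw [← ofReal_integral_eq_lintegral_ofReal hi]
    · congr 1
      rw [integral_const_mul]
      have h1 := integral_Ioi_rpow_of_lt (a := -2) (by norm_num) hT0
      have h2 : ∫ x in Set.Ioi T, (x ^ 2)⁻¹ = ∫ x in Set.Ioi T, x ^ (-2 : ℝ) := by
        refine setIntegral_congr_fun measurableSet_Ioi fun x hx => ?_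
        have hx0 : 0 < x := hT0.trans hx
        rw [Real.rpow_neg hx0.le, Real.rpow_two]
      rw [h2, h1]
      norm_num
      rw [Real.rpow_neg hT0.le, Real.rpow_one]
      field_simp
    · refine (ae_restrict_mem measurableSet_Ioi).mono fun x _ => ?_
      simp only [Pi.zero_apply]
      positivity
  have hf : Measurable (fun x : ℝ => ENNReal.ofReal (K / 2 * (x ^ 2)⁻¹)) := by fun_prop
  have h1 : ∀ ξ : ℝ, (Set.Iic T)ᶜ.indicator (fun x => ENNReal.ofReal (K / 2 * (x ^ 2)⁻¹)) |ξ| ≤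
      (Set.Ioi T).indicator (fun x => ENNReal.ofReal (K / 2 * (x ^ 2)⁻¹)) ξ +
      (Set.Ioi T).indicator (fun x => ENNReal.ofReal (K / 2 * (x ^ 2)⁻¹)) (-ξ) := by
    intro ξ
    rcases le_or_gt 0 ξ with h | h
    · rw [abs_of_nonneg h, Set.compl_Iic]
      exact le_add_right le_rfl
    · rw [abs_of_neg h, Set.compl_Iic]
      exact le_add_left le_rfl
  calc _ ≤ ∫⁻ ξ : ℝ, ((Set.Ioi T).indicator (fun x => ENNReal.ofReal (K / 2 * (x ^ 2)⁻¹)) ξ +
      (Set.Ioi T).indicator (fun x => ENNReal.ofReal (K / 2 * (x ^ 2)⁻¹)) (-ξ)) := lintegral_mono h1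
    _ = (∫⁻ ξ : ℝ, (Set.Ioi T).indicator (fun x => ENNReal.ofReal (K / 2 * (x ^ 2)⁻¹)) ξ) +
        ∫⁻ ξ : ℝ, (Set.Ioi T).indicator (fun x => ENNReal.ofReal (K / 2 * (x ^ 2)⁻¹)) (-ξ) :=
        lintegral_add_left (hf.indicator measurableSet_Ioi) _
    _ = ENNReal.ofReal (K / 2 / T) + ENNReal.ofReal (K / 2 / T) := by
        rw [lintegral_neg_eq_self, lintegral_indicator measurableSet_Ioi, h0]
    _ = _ := by
        rw [← ENNReal.ofReal_add (by positivity) (by positivity)]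
        congr 1
        ring

/-- the Fourier transform -/
theorem four_eq (H : ℝ → ℂ) (ξ : ℝ) : 𝓕 H ξ = ∫ y, H y * er (-(2 * Real.pi * ξ)) y := by
  rw [Real.fourier_real_eq_integral_exp_smul]
  congr 1
  funext y
  simp only [er, smul_eq_mul]
  rw [mul_comm]
  congr 3
  push_cast
  ring

theorem H_int {H : ℝ → ℂ} (hHm : Measurable H) (hH : ∀ y, ‖H y‖ ≤ 2) {Y R : ℝ}
    (hHs : ∀ y, y ∉ Set.Icc Y (Y + R) → H y = 0) : Integrable H := by
  have h1 : IntegrableOn H (Set.Icc Y (Y + R)) := by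
    refine Measure.integrableOn_of_bounded (M := 2) (by simp) hHm.aestronglyMeasurable ?_
    exact Eventually.of_forall fun y => hH y
  rw [← integrable_indicator_iff measurableSet_Icc] at h1
  refine h1.congr (Eventually.of_forall fun y => ?_)
  by_cases hy : y ∈ Set.Icc Y (Y + R)
  · simp [hy]
  · simp only [Set.indicator_of_notMem hy, hHs y hy]

theorem H_sq {H : ℝ → ℂ} (hH : ∀ y, ‖H y‖ ≤ 2) {Y R : ℝ}
    (hHs : ∀ y, y ∉ Set.Icc Y (Y + R) → H y = 0) : ∫⁻ x, ‖H x‖ₑ ^ 2 ≤ ENNReal.ofReal (4 * R) := by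
  calc ∫⁻ x, ‖H x‖ₑ ^ 2 ≤ ∫⁻ x, (Set.Icc Y (Y + R)).indicator (fun _ => (4 : ℝ≥0∞)) x := by
        refine lintegral_mono fun x => ?_
        by_cases hx : x ∈ Set.Icc Y (Y + R)
        · rw [Set.indicator_of_mem hx]
          have h1 := enorm_sq_le (hH x)
          refine h1.trans (le_of_eq ?_)
          norm_num
        · rw [Set.indicator_of_notMem hx, hHs x hx]
          simp
    _ = ENNReal.ofReal (4 * R) := by
        rw [lintegral_indicator measurableSet_Icc, setLIntegral_const, Real.volume_Icc,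
          add_sub_cancel_left, ENNReal.ofReal_mul (by norm_num)]
        norm_num

theorem pl : S_PL := by
  intro Ω _ m _ s g φ hgm hφm hg H hHm hH Y R hR hHs V hV hVη T κ S p q hT hκ hS hpq hex hmid
  have hHi : Integrable H := H_int hHm hH hHs
  have hpi := Real.pi_pos
  have hpi3 := Real.pi_gt_three
  have hT0 : 0 < T := by linarith
  have hFc : Continuous (𝓕 H) := VectorFourier.fourierIntegral_continuous Real.continuous_fourierChar
      (by exact continuous_inner) hHi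
  have hFm : Measurable (fun ξ => ‖𝓕 H ξ‖ₑ ^ 2) := hFc.measurable.enorm.pow_const 2
  have hFi : ∀ ω, Integrable (fun u => ∑ n ∈ s, g ω n * H (u + φ ω n)) := fun ω =>
    integrable_finsetSum _ fun n _ => (hHi.comp_add_right _).const_mul _
  have hFb : ∀ ω u, ‖∑ n ∈ s, g ω n * H (u + φ ω n)‖ ≤ 2 * s.card := by
    intro ω u
    refine (norm_sum_le _ _).trans ?_
    calc ∑ n ∈ s, ‖g ω n * H (u + φ ω n)‖ ≤ ∑ n ∈ s, (2 : ℝ) := by
          refine Finset.sum_le_sum fun n _ => ?_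
          rw [norm_mul]
          calc _ ≤ 1 * (2 : ℝ) := mul_le_mul (hg ω n) (hH _) (norm_nonneg _) zero_le_one
            _ = 2 := one_mul _
      _ = 2 * s.card := by rw [Finset.sum_const, nsmul_eq_mul, mul_comm]
  have hGb : ∀ ω η, ‖∑ n ∈ s, g ω n * er η (φ ω n)‖ ≤ s.card := by
    intro ω η
    refine (norm_sum_le _ _).trans ?_
    calc ∑ n ∈ s, ‖g ω n * er η (φ ω n)‖ ≤ ∑ n ∈ s, (1 : ℝ) := by
          refine Finset.sum_le_sum fun n _ => ?_
          rw [norm_mul, er_norm, mul_one]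
          exact hg ω n
      _ = s.card := by simp
  have h1 : ∀ ω, ∫⁻ u, ‖∑ n ∈ s, g ω n * H (u + φ ω n)‖ₑ ^ 2 =
      ∫⁻ ξ, ‖∑ n ∈ s, g ω n * er (2 * Real.pi * ξ) (φ ω n)‖ₑ ^ 2 * ‖𝓕 H ξ‖ₑ ^ 2 := by
    intro ω
    rw [← Pool.Agent.TH794.QD.plancherel _ (hFi ω) (memLp_of_bdd (hFi ω) (hFb ω))]
    refine lintegral_congr fun ξ => ?_
    have h2 : 𝓕 (fun u => ∑ n ∈ s, g ω n * H (u + φ ω n)) ξ =
        (∑ n ∈ s, g ω n * er (2 * Real.pi * ξ) (φ ω n)) * 𝓕 H ξ := by
      rw [four_fsum _ _ fun n _ => (hHi.comp_add_right _).const_mul _, Finset.sum_mul]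
      refine Finset.sum_congr rfl fun n _ => ?_
      rw [four_smulc, four_shift]
      ring
    rw [h2, enorm_mul, mul_pow]
  rw [lintegral_congr h1]
  have hEm : Measurable (Function.uncurry fun (ω : Ω) (ξ : ℝ) =>
      ‖∑ n ∈ s, g ω n * er (2 * Real.pi * ξ) (φ ω n)‖ₑ ^ 2) := by
    have : Measurable (fun p : Ω × ℝ => ∑ n ∈ s, g p.1 n * er (2 * Real.pi * p.2) (φ p.1 n)) := by
      refine Finset.measurable_fun_sum _ fun n _ => ?_
      refine ((hgm n).comp measurable_fst).mul ?_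
      have h3 : Measurable fun p : Ω × ℝ => φ p.1 n := (hφm n).comp measurable_fst
      unfold er
      fun_prop
    exact this.enorm.pow_const 2
  rw [ton m (fun ω ξ => ‖∑ n ∈ s, g ω n * er (2 * Real.pi * ξ) (φ ω n)‖ₑ ^ 2)
    (fun ξ => ‖𝓕 H ξ‖ₑ ^ 2) hEm hFm]
  obtain ⟨N2, hN2⟩ : ∃ N2 : ℝ, N2 = m.real Set.univ * (s.card : ℝ) ^ 2 := ⟨_, rfl⟩
  have hN20 : 0 ≤ N2 := by rw [hN2]; positivity
  have hb2 : ∀ ξ : ℝ, ∫⁻ ω, ‖∑ n ∈ s, g ω n * er (2 * Real.pi * ξ) (φ ω n)‖ₑ ^ 2 ∂m ≤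
      ENNReal.ofReal N2 := by
    intro ξ
    calc _ ≤ ∫⁻ _, ENNReal.ofReal ((s.card : ℝ) ^ 2) ∂m :=
          lintegral_mono fun ω => enorm_sq_le (hGb ω _)
      _ = _ := by
          rw [lintegral_const, mul_comm, hN2, ENNReal.ofReal_mul (by positivity), measureReal_def,
            ENNReal.ofReal_toReal (measure_ne_top _ _)]
  have habs : ∀ ξ : ℝ, |2 * Real.pi * ξ| = 2 * Real.pi * |ξ| := by
    intro ξ
    rw [abs_mul, abs_of_pos (show (0 : ℝ) < 2 * Real.pi by positivity)]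
  obtain ⟨K, hK⟩ : ∃ K : ℝ, K = N2 * V ^ 2 / (2 * Real.pi ^ 2) := ⟨_, rfl⟩
  have hK0 : 0 ≤ K := by rw [hK]; positivity
  have hpt : ∀ ξ : ℝ, (∫⁻ ω, ‖∑ n ∈ s, g ω n * er (2 * Real.pi * ξ) (φ ω n)‖ₑ ^ 2 ∂m) *
      ‖𝓕 H ξ‖ₑ ^ 2 ≤ ENNReal.ofReal S * ‖𝓕 H ξ‖ₑ ^ 2 +
        ((Set.Icc (p / (2 * Real.pi)) (q / (2 * Real.pi))).indicator
          (fun _ => ENNReal.ofReal (N2 * κ ^ 2)) ξ +
        (Set.Iic (T / (2 * Real.pi)))ᶜ.indicator
          (fun x => ENNReal.ofReal (K / 2 * (x ^ 2)⁻¹)) |ξ|) := by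
    intro ξ
    by_cases hξ : |ξ| ≤ T / (2 * Real.pi)
    · have hξ' : |2 * Real.pi * ξ| ≤ T := by
        rw [habs]
        rw [le_div_iff₀ (by positivity)] at hξ
        linarith
      by_cases hin : 2 * Real.pi * ξ ∈ Set.Icc p q
      · refine le_add_left (le_add_right ?_)
        rw [Set.indicator_of_mem]
        · have h3 : ‖𝓕 H ξ‖ ≤ κ := by
            rw [four_eq]
            exact hex _ hin hξ'
          calc _ ≤ ENNReal.ofReal N2 * ENNReal.ofReal (κ ^ 2) :=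
                mul_le_mul' (hb2 ξ) (enorm_sq_le h3)
            _ = _ := by rw [ENNReal.ofReal_mul hN20]
        · constructor
          · rw [div_le_iff₀ (by positivity)]
            linarith [hin.1]
          · rw [le_div_iff₀ (by positivity)]
            linarith [hin.2]
      · exact le_add_right (mul_le_mul' (hmid _ hξ' hin) le_rfl)
    · refine le_add_left (le_add_left ?_)
      rw [Set.indicator_of_mem (by simpa using hξ)]
      have hξ1 : T / (2 * Real.pi) < |ξ| := not_le.1 hξ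
      have hξ0 : 0 < |ξ| := lt_trans (by positivity) hξ1
      have h3 : ‖𝓕 H ξ‖ ≤ V / (2 * Real.pi * |ξ|) := by
        rw [four_eq, ← habs]
        exact hVη _ (by rw [habs]; positivity)
      calc _ ≤ ENNReal.ofReal N2 * ENNReal.ofReal ((V / (2 * Real.pi * |ξ|)) ^ 2) :=
            mul_le_mul' (hb2 ξ) (enorm_sq_le h3)
        _ = ENNReal.ofReal (N2 * (V / (2 * Real.pi * |ξ|)) ^ 2) := by rw [ENNReal.ofReal_mul hN20]
        _ = _ := by
            congr 1
            rw [hK]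
            field_simp
  have hm1 : Measurable fun ξ : ℝ => (Set.Icc (p / (2 * Real.pi)) (q / (2 * Real.pi))).indicator
      (fun _ => ENNReal.ofReal (N2 * κ ^ 2)) ξ := measurable_const.indicator measurableSet_Icc
  have hint : ∫⁻ ξ : ℝ, (Set.Icc (p / (2 * Real.pi)) (q / (2 * Real.pi))).indicator
      (fun _ => ENNReal.ofReal (N2 * κ ^ 2)) ξ ≤ ENNReal.ofReal (N2 * κ ^ 2 * (q - p)) := by
    rw [lintegral_indicator measurableSet_Icc, setLIntegral_const, Real.volume_Icc,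
      ← ENNReal.ofReal_mul (by positivity)]
    apply ENNReal.ofReal_le_ofReal
    apply mul_le_mul_of_nonneg_left _ (by positivity)
    rw [← sub_div, div_le_iff₀ (by positivity)]
    nlinarith [sub_nonneg.2 hpq]
  calc _ ≤ ∫⁻ ξ : ℝ, (ENNReal.ofReal S * ‖𝓕 H ξ‖ₑ ^ 2 +
        ((Set.Icc (p / (2 * Real.pi)) (q / (2 * Real.pi))).indicator
          (fun _ => ENNReal.ofReal (N2 * κ ^ 2)) ξ +
        (Set.Iic (T / (2 * Real.pi)))ᶜ.indicator
          (fun x => ENNReal.ofReal (K / 2 * (x ^ 2)⁻¹)) |ξ|)) := lintegral_mono hpt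
    _ = ENNReal.ofReal S * (∫⁻ ξ : ℝ, ‖𝓕 H ξ‖ₑ ^ 2) +
        ((∫⁻ ξ : ℝ, (Set.Icc (p / (2 * Real.pi)) (q / (2 * Real.pi))).indicator
          (fun _ => ENNReal.ofReal (N2 * κ ^ 2)) ξ) +
        ∫⁻ ξ : ℝ, (Set.Iic (T / (2 * Real.pi)))ᶜ.indicator
          (fun x => ENNReal.ofReal (K / 2 * (x ^ 2)⁻¹)) |ξ|) := by
        rw [lintegral_add_left (hFm.const_mul _), lintegral_const_mul _ hFm,
          lintegral_add_left hm1]
    _ ≤ ENNReal.ofReal S * ENNReal.ofReal (4 * R) + (ENNReal.ofReal (N2 * κ ^ 2 * (q - p)) +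
        ENNReal.ofReal (K / (T / (2 * Real.pi)))) := by
        refine add_le_add (mul_le_mul' le_rfl ?_) (add_le_add hint (tail2 (by positivity) hK0))
        rw [Pool.Agent.TH794.QD.plancherel _ hHi (memLp_of_bdd hHi hH)]
        exact H_sq hH hHs
    _ ≤ _ := by
        have hq0 : 0 ≤ q - p := sub_nonneg.2 hpq
        rw [← ENNReal.ofReal_mul hS, ← ENNReal.ofReal_add (by positivity) (by positivity),
          ← ENNReal.ofReal_add (by positivity) (by positivity)]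
        apply ENNReal.ofReal_le_ofReal
        have h3 : K / (T / (2 * Real.pi)) ≤ 2 * V ^ 2 / T * N2 := by
          have h4 : K / (T / (2 * Real.pi)) = (V ^ 2 / T * N2) * (1 / Real.pi) := by
            rw [hK]
            field_simp
          have h5 : 1 / Real.pi ≤ 2 := by
            rw [div_le_iff₀ hpi]
            linarith
          rw [h4]
          calc V ^ 2 / T * N2 * (1 / Real.pi) ≤ V ^ 2 / T * N2 * 2 :=
                mul_le_mul_of_nonneg_left h5 (by positivity)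
            _ = _ := by ring
        have h6 : ((q - p) * κ ^ 2 + 2 * V ^ 2 / T) * (s.card : ℝ) ^ 2 * m.real Set.univ + 4 * R * S =
            S * (4 * R) + (N2 * κ ^ 2 * (q - p) + 2 * V ^ 2 / T * N2) := by
          rw [hN2]
          ring
        rw [h6]
        linarith

end Pool.Agent.N499.T
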